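import Mathlib

/-!
# Project RC, SHARP, zone I: the pointwise part `T1` of the Bessel weights

`pair_id`: the average over `t`, `t + π` of `Im (x conj F)² / (|F|² φ')`, exactly; `core_real`: its bound for
`|a| + (8/5) |s| ≤ 1/12`, real form; `T1_pt`: complex form.
-/

set_option autoImplicit false
set_option linter.unusedSimpArgs false

namespace Pool.Agent.Helper17.SH

/-! ### auxiliary inequalities -/

theorem lin2 {p1 p2 x y P α : ℝ} (hP : 0 ≤ P) (hα : 0 ≤ α) (h : x ^ 2 + y ^ 2 = α ^ 2) (hp : p1 ^ 2 + p2 ^ 2 ≤ P ^ 2) :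
    |p1 * x + p2 * y| ≤ P * α := by
  refine abs_le_of_sq_le_sq ?_ (mul_nonneg hP hα)
  have h1 : (p1 * x + p2 * y) ^ 2 ≤ (p1 ^ 2 + p2 ^ 2) * (x ^ 2 + y ^ 2) := by
    nlinarith [sq_nonneg (p1 * y - p2 * x)]
  have h2 : (p1 ^ 2 + p2 ^ 2) * (x ^ 2 + y ^ 2) ≤ P ^ 2 * α ^ 2 := by
    rw [h]; exact mul_le_mul_of_nonneg_right hp (sq_nonneg _)
  calc _ ≤ _ := h1
    _ ≤ _ := h2
    _ = _ := by ring

theorem lin4 {p1 p2 q1 q2 ax ay sx sy P Q α β : ℝ} (hP : 0 ≤ P) (hQ : 0 ≤ Q) (hα : 0 ≤ α) (hβ : 0 ≤ β)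
    (ha : ax ^ 2 + ay ^ 2 = α ^ 2) (hs : sx ^ 2 + sy ^ 2 = β ^ 2) (hp : p1 ^ 2 + p2 ^ 2 ≤ P ^ 2)
    (hq : q1 ^ 2 + q2 ^ 2 ≤ Q ^ 2) : |p1 * ax + p2 * ay + (q1 * sx + q2 * sy)| ≤ P * α + Q * β :=
  (abs_add_le _ _).trans (add_le_add (lin2 hP hα ha hp) (lin2 hQ hβ hs hq))

theorem mink {w1 w2 p1 p2 q1 q2 A B F : ℝ} (hw1 : 0 ≤ w1) (hw2 : 0 ≤ w2) (hA : 0 ≤ A) (hB : 0 ≤ B) (hF : 0 ≤ F)
    (hp : w1 * p1 ^ 2 + w2 * p2 ^ 2 ≤ A ^ 2 * F) (hq : w1 * q1 ^ 2 + w2 * q2 ^ 2 ≤ B ^ 2 * F) :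
    w1 * (p1 + q1) ^ 2 + w2 * (p2 + q2) ^ 2 ≤ (A + B) ^ 2 * F := by
  have key : w1 * p1 * q1 + w2 * p2 * q2 ≤ A * B * F := by
    refine le_trans (le_abs_self _) (abs_le_of_sq_le_sq ?_ (by positivity))
    have h1 : (w1 * p1 * q1 + w2 * p2 * q2) ^ 2 ≤
        (w1 * p1 ^ 2 + w2 * p2 ^ 2) * (w1 * q1 ^ 2 + w2 * q2 ^ 2) := by
      have : (w1 * p1 ^ 2 + w2 * p2 ^ 2) * (w1 * q1 ^ 2 + w2 * q2 ^ 2) - (w1 * p1 * q1 + w2 * p2 * q2) ^ 2 =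
          w1 * w2 * (p1 * q2 - p2 * q1) ^ 2 := by ring
      have h2 : 0 ≤ w1 * w2 * (p1 * q2 - p2 * q1) ^ 2 := by positivity
      linarith
    have h3 : (w1 * p1 ^ 2 + w2 * p2 ^ 2) * (w1 * q1 ^ 2 + w2 * q2 ^ 2) ≤ (A ^ 2 * F) * (B ^ 2 * F) :=
      mul_le_mul hp hq (by positivity) (by positivity)
    calc _ ≤ _ := h1
      _ ≤ _ := h3
      _ = _ := by ring
  have e1 : w1 * (p1 + q1) ^ 2 + w2 * (p2 + q2) ^ 2 =
      (w1 * p1 ^ 2 + w2 * p2 ^ 2) + (w1 * q1 ^ 2 + w2 * q2 ^ 2) + 2 * (w1 * p1 * q1 + w2 * p2 * q2) := by ring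
  have e2 : (A + B) ^ 2 * F = A ^ 2 * F + B ^ 2 * F + 2 * (A * B * F) := by ring
  linarith

/-! ### the even parts -/

theorem zzA {ax ay sx sy α β : ℝ} (x y : ℝ) (hα : 0 ≤ α) (hβ : 0 ≤ β) (ha : ax ^ 2 + ay ^ 2 = α ^ 2)
    (hs : sx ^ 2 + sy ^ 2 = β ^ 2) :
    1 / 8 * ((7 * ay * x - 5 * ax * y) + (9 / 2 * sy * x - 17 / 2 * sx * y)) ^ 2 +
      3 / 8 * ((ax * x - ay * y) + (13 / 2 * sx * x + 1 / 2 * sy * y)) ^ 2 ≤
      (α + 8 / 5 * β) ^ 2 * (69 / 10 * x ^ 2 + 19 / 5 * y ^ 2) := by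
  refine mink (by norm_num) (by norm_num) hα (by positivity) (by positivity) ?_ ?_
  · rw [← ha]
    nlinarith [sq_nonneg (ax * x + 67 / 100 * (ay * y)), sq_nonneg (ay * x + 1 / 2 * (ax * y)), sq_nonneg (ax * x),
      sq_nonneg (ay * y), sq_nonneg (ay * x), sq_nonneg (ax * y)]
  · rw [mul_pow, ← hs]
    nlinarith [sq_nonneg (43 / 100 * (sx * x) + (sy * y)), sq_nonneg (sy * x + 1 / 2 * (sx * y)), sq_nonneg (sx * x),
      sq_nonneg (sy * y), sq_nonneg (sy * x), sq_nonneg (sx * y)]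

theorem bbB {ax ay sx sy α β : ℝ} (b2 b3 : ℝ) (hα : 0 ≤ α) (hβ : 0 ≤ β) (ha : ax ^ 2 + ay ^ 2 = α ^ 2)
    (hs : sx ^ 2 + sy ^ 2 = β ^ 2) :
    1 / 128 * ((7 * ax * b3 + 20 * ay * b2) + (139 / 2 * sx * b3 + 6 * sy * b2)) ^ 2 +
      3 / 128 * ((12 * ax * b2 + 27 * ay * b3) + (30 * sx * b2 + 37 / 2 * sy * b3)) ^ 2 ≤
      (α + 8 / 5 * β) ^ 2 * (43 / 5 * b2 ^ 2 + 173 / 10 * b3 ^ 2) := by
  refine mink (by norm_num) (by norm_num) hα (by positivity) (by positivity) ?_ ?_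
  · rw [← ha]
    nlinarith [sq_nonneg (ax * b3 - 14 / 25 * (ay * b2)), sq_nonneg (ax * b2 - 1 / 5 * (ay * b3)), sq_nonneg (ax * b2),
      sq_nonneg (ay * b3), sq_nonneg (ay * b2), sq_nonneg (ax * b3)]
  · rw [mul_pow, ← hs]
    nlinarith [sq_nonneg (11 / 20 * (sx * b3) - (sy * b2)), sq_nonneg (4 / 25 * (sx * b2) - (sy * b3)),
      sq_nonneg (sx * b2), sq_nonneg (sy * b3), sq_nonneg (sy * b2), sq_nonneg (sx * b3)]

/-! ### the odd part, leading order -/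

theorem U0a {ax ay α : ℝ} (b2 b3 : ℝ) (ha : ax ^ 2 + ay ^ 2 = α ^ 2) :
    411 / 100 * (9 / 4 * ax * b2 + 125 / 16 * ay * b3) ^ 2 +
      88 / 5 * (-(5 / 4) * ay * b2 - 51 / 16 * ax * b3) ^ 2 ≤ α ^ 2 * (190 * b2 ^ 2 + 257 * b3 ^ 2) := by
  rw [← ha]
  nlinarith [sq_nonneg (ax * b2 - 19 / 100 * (ay * b3)), sq_nonneg (17 / 25 * (ax * b3) - (ay * b2)),
    sq_nonneg (ax * b2), sq_nonneg (ay * b3), sq_nonneg (ay * b2), sq_nonneg (ax * b3)]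

theorem U0s {sx sy β : ℝ} (b2 b3 : ℝ) (hs : sx ^ 2 + sy ^ 2 = β ^ 2) :
    411 / 100 * (45 / 8 * sx * b2 + 243 / 32 * sy * b3) ^ 2 +
      88 / 5 * (-(3 / 8) * sy * b2 - 183 / 32 * sx * b3) ^ 2 ≤
      (3 / 2 * β) ^ 2 * (190 * b2 ^ 2 + 257 * b3 ^ 2) := by
  rw [mul_pow, ← hs]
  nlinarith [sq_nonneg (sx * b2 - (sy * b3)), sq_nonneg ((sx * b3) - (sy * b2)),
    sq_nonneg (sx * b2), sq_nonneg (sy * b3), sq_nonneg (sy * b2), sq_nonneg (sx * b3)]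

/-! ### one pair `t`, `t + π` -/

theorem pair_id {Yz Xz Yb Xb zx zy h κ D1 D2 : ℝ} (e1 : D1 = (1 - κ) + (2 * zx - h))
    (e2 : D2 = (1 - κ) - (2 * zx - h)) (hp : D1 ≠ 0) (hm : D2 ≠ 0) :
    ((Yz + (Yb * zx - Xb * zy) + (Yb + (Yz * zx - Xz * zy))) ^ 2 / D1 +
      (Yz + (Yb * zx - Xb * zy) - (Yb + (Yz * zx - Xz * zy))) ^ 2 / D2) / 2 =
      Yz ^ 2 + Yb ^ 2 + (1 / (D1 * D2)) *
        ((((zx - h) * Yz + Xz * zy) ^ 2 + κ * ((1 - κ) * Yz ^ 2 - (Yz * zx - Xz * zy) ^ 2)) +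
         (((zx - h) * Yb + Xb * zy) ^ 2 + κ * ((1 - κ) * Yb ^ 2 - (Yb * zx - Xb * zy) ^ 2)) +
         2 * ((1 - κ) * (h * (Yz * Yb) - zy * (Xb * Yz + Xz * Yb)) -
           (2 * zx - h) * (κ * (Yz * Yb) + (Yb * zx - Xb * zy) * (Yz * zx - Xz * zy)))) := by
  have e3 : (Yz + (Yb * zx - Xb * zy) + (Yb + (Yz * zx - Xz * zy))) ^ 2 * D2 +
      (Yz + (Yb * zx - Xb * zy) - (Yb + (Yz * zx - Xz * zy))) ^ 2 * D1 =
      2 * ((Yz ^ 2 + Yb ^ 2) * (D1 * D2) +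
        ((((zx - h) * Yz + Xz * zy) ^ 2 + κ * ((1 - κ) * Yz ^ 2 - (Yz * zx - Xz * zy) ^ 2)) +
         (((zx - h) * Yb + Xb * zy) ^ 2 + κ * ((1 - κ) * Yb ^ 2 - (Yb * zx - Xb * zy) ^ 2)) +
         2 * ((1 - κ) * (h * (Yz * Yb) - zy * (Xb * Yz + Xz * Yb)) -
           (2 * zx - h) * (κ * (Yz * Yb) + (Yb * zx - Xb * zy) * (Yz * zx - Xz * zy))))) := by
    rw [e1, e2]; ring
  rw [div_add_div _ _ hp hm, mul_comm D1 ((_ : ℝ) ^ 2), e3]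
  have h12 : D1 * D2 ≠ 0 := mul_ne_zero hp hm
  generalize D1 * D2 = D at *
  field_simp

/-! ### the remainder of the odd part -/

theorem rem_aux {L YY lb lz m κ ω g Ω mu M k B2 B3 X Y l2x l2y l3x l3y y2x y2y y3x y3y p2 p3 qx qy
    c2x c2y c3x c3y : ℝ} (hB2 : 0 ≤ B2) (hB3 : 0 ≤ B3) (hX : 0 ≤ X) (hY : 0 ≤ Y)
    (hL : |L| ≤ l2x * (B2 * X) + l2y * (B2 * Y) + l3x * (B3 * X) + l3y * (B3 * Y))
    (hYY : |YY| ≤ y2x * (B2 * X) + y2y * (B2 * Y) + y3x * (B3 * X) + y3y * (B3 * Y))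
    (hlb : |lb| ≤ p2 * B2 + p3 * B3) (hlz : |lz| ≤ qx * X + qy * Y) (hm : |m| ≤ M) (hk : |κ| ≤ k)
    (hω : 0 ≤ ω) (hωΩ : ω ≤ Ω) (hg : 0 ≤ g) (hgΩ : g ≤ Ω * mu)
    (h2x : mu * M ^ 2 * l2x + M * (k * y2x + p2 * qx) ≤ c2x) (h2y : mu * M ^ 2 * l2y + M * (k * y2y + p2 * qy) ≤ c2y)
    (h3x : mu * M ^ 2 * l3x + M * (k * y3x + p3 * qx) ≤ c3x) (h3y : mu * M ^ 2 * l3y + M * (k * y3y + p3 * qy) ≤ c3y) :
    |m ^ 2 * g * L - ω * m * (κ * YY + lb * lz)| ≤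
      Ω * (c2x * (B2 * X) + c2y * (B2 * Y) + c3x * (B3 * X) + c3y * (B3 * Y)) := by
  have hΩ : 0 ≤ Ω := hω.trans hωΩ
  have hM : 0 ≤ M := (abs_nonneg _).trans hm
  have hk0 : 0 ≤ k := (abs_nonneg _).trans hk
  have t1 : |m ^ 2 * g * L| ≤ M ^ 2 * (Ω * mu) * (l2x * (B2 * X) + l2y * (B2 * Y) + l3x * (B3 * X) + l3y * (B3 * Y)) := by
    rw [abs_mul, abs_mul, abs_of_nonneg hg, abs_pow]
    exact mul_le_mul (mul_le_mul (pow_le_pow_left₀ (abs_nonneg _) hm 2) hgΩ hg (by positivity)) hL (abs_nonneg _)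
      (mul_nonneg (by positivity) (hg.trans hgΩ))
  have t2 : |κ * YY + lb * lz| ≤ k * (y2x * (B2 * X) + y2y * (B2 * Y) + y3x * (B3 * X) + y3y * (B3 * Y)) +
      (p2 * B2 + p3 * B3) * (qx * X + qy * Y) := by
    refine (abs_add_le _ _).trans (add_le_add ?_ ?_)
    · rw [abs_mul]; exact mul_le_mul hk hYY (abs_nonneg _) hk0
    · rw [abs_mul]; exact mul_le_mul hlb hlz (abs_nonneg _) ((abs_nonneg _).trans hlb)
  have t3 : |ω * m * (κ * YY + lb * lz)| ≤ Ω * M * (k * (y2x * (B2 * X) + y2y * (B2 * Y) + y3x * (B3 * X) +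
      y3y * (B3 * Y)) + (p2 * B2 + p3 * B3) * (qx * X + qy * Y)) := by
    rw [abs_mul, abs_mul, abs_of_nonneg hω]
    exact mul_le_mul (mul_le_mul hωΩ hm (abs_nonneg _) hΩ) t2 (abs_nonneg _) (by positivity)
  have t4 := abs_sub (m ^ 2 * g * L) (ω * m * (κ * YY + lb * lz))
  have a1 := mul_le_mul_of_nonneg_left (mul_le_mul_of_nonneg_right h2x (mul_nonneg hB2 hX)) hΩ
  have a2 := mul_le_mul_of_nonneg_left (mul_le_mul_of_nonneg_right h2y (mul_nonneg hB2 hY)) hΩ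
  have a3 := mul_le_mul_of_nonneg_left (mul_le_mul_of_nonneg_right h3x (mul_nonneg hB3 hX)) hΩ
  have a4 := mul_le_mul_of_nonneg_left (mul_le_mul_of_nonneg_right h3y (mul_nonneg hB3 hY)) hΩ
  refine (t4.trans (add_le_add t1 t3)).trans ?_
  calc _ = Ω * ((mu * M ^ 2 * l2x + M * (k * y2x + p2 * qx)) * (B2 * X)) +
        Ω * ((mu * M ^ 2 * l2y + M * (k * y2y + p2 * qy)) * (B2 * Y)) +
        Ω * ((mu * M ^ 2 * l3x + M * (k * y3x + p3 * qx)) * (B3 * X)) +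
        Ω * ((mu * M ^ 2 * l3y + M * (k * y3y + p3 * qy)) * (B3 * Y)) := by ring
    _ ≤ Ω * (c2x * (B2 * X)) + Ω * (c2y * (B2 * Y)) + Ω * (c3x * (B3 * X)) + Ω * (c3y * (B3 * Y)) :=
        add_le_add (add_le_add (add_le_add a1 a2) a3) a4
    _ = _ := by ring

section cubic

variable {α β : ℝ}

theorem cub2x (hα : 0 ≤ α) (hβ : 0 ≤ β) :
    66 / 65 * (α + 3279 / 1000 * β) ^ 2 * (9 / 4 * α + 406 / 125 * β) +
      (α + 3279 / 1000 * β) * ((2 * α ^ 2 + 8 * (α * β) + 7 / 2 * β ^ 2) * (3 / 4) +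
        (α + 867 / 1000 * β) * (α + 3 / 2 * β)) ≤
      (α + 8 / 5 * β) ^ 2 * (479 / 100 * α + 319 / 25 * (8 / 5 * β)) := by
  have h1 : 0 ≤ α ^ 3 := by positivity
  have h2 : 0 ≤ α ^ 2 * β := by positivity
  have h3 : 0 ≤ α * β ^ 2 := by positivity
  have h4 : 0 ≤ β ^ 3 := by positivity
  nlinarith

theorem cub2y (hα : 0 ≤ α) (hβ : 0 ≤ β) :
    66 / 65 * (α + 3279 / 1000 * β) ^ 2 * (41 / 25 * α + 1033 / 500 * β) +
      (α + 3279 / 1000 * β) * ((2 * α ^ 2 + 8 * (α * β) + 7 / 2 * β ^ 2) * (217 / 500) +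
        (α + 867 / 1000 * β) * (α + 1 / 2 * β)) ≤
      (α + 8 / 5 * β) ^ 2 * (177 / 50 * α + 198 / 25 * (8 / 5 * β)) := by
  have h1 : 0 ≤ α ^ 3 := by positivity
  have h2 : 0 ≤ α ^ 2 * β := by positivity
  have h3 : 0 ≤ α * β ^ 2 := by positivity
  have h4 : 0 ≤ β ^ 3 := by positivity
  nlinarith

theorem cub3x (hα : 0 ≤ α) (hβ : 0 ≤ β) :
    66 / 65 * (α + 3279 / 1000 * β) ^ 2 * (157 / 40 * α + 1069 / 200 * β) +
      (α + 3279 / 1000 * β) * ((2 * α ^ 2 + 8 * (α * β) + 7 / 2 * β ^ 2) * (1191 / 1000) +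
        (7 / 4 * α + 1301 / 500 * β) * (α + 3 / 2 * β)) ≤
      (α + 8 / 5 * β) ^ 2 * (203 / 25 * α + 223 / 10 * (8 / 5 * β)) := by
  have h1 : 0 ≤ α ^ 3 := by positivity
  have h2 : 0 ≤ α ^ 2 * β := by positivity
  have h3 : 0 ≤ α * β ^ 2 := by positivity
  have h4 : 0 ≤ β ^ 3 := by positivity
  nlinarith

theorem cub3y (hα : 0 ≤ α) (hβ : 0 ≤ β) :
    66 / 65 * (α + 3279 / 1000 * β) ^ 2 * (2163 / 1000 * α + 303 / 100 * β) +
      (α + 3279 / 1000 * β) * ((2 * α ^ 2 + 8 * (α * β) + 7 / 2 * β ^ 2) * (11 / 16) +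
        (7 / 4 * α + 1301 / 500 * β) * (α + 1 / 2 * β)) ≤
      (α + 8 / 5 * β) ^ 2 * (533 / 100 * α + 1237 / 100 * (8 / 5 * β)) := by
  have h1 : 0 ≤ α ^ 3 := by positivity
  have h2 : 0 ≤ α ^ 2 * β := by positivity
  have h3 : 0 ≤ α * β ^ 2 := by positivity
  have h4 : 0 ≤ β ^ 3 := by positivity
  nlinarith

end cubic

theorem kap_sq {Y l κ k : ℝ} (hk : |κ| ≤ k) (_h1 : κ ≤ 1) : κ * ((1 - κ) * Y ^ 2 - l ^ 2) ≤ k * (Y ^ 2 + l ^ 2) := by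
  have hY := sq_nonneg Y
  have hl := sq_nonneg l
  rcases le_total 0 κ with h | h
  · have h2 : κ ≤ k := (le_abs_self _).trans hk
    have h3 : κ * ((1 - κ) * Y ^ 2 - l ^ 2) ≤ κ * Y ^ 2 :=
      mul_le_mul_of_nonneg_left (by nlinarith) h
    have h4 := mul_le_mul_of_nonneg_right h2 hY
    have h5 := mul_nonneg (h.trans h2) hl
    linarith
  · have h2 : -κ ≤ k := (neg_le_abs _).trans hk
    have h3 : κ * ((1 - κ) * Y ^ 2 - l ^ 2) ≤ -κ * l ^ 2 := by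
      have : 0 ≤ -κ * ((1 - κ) * Y ^ 2) := mul_nonneg (by linarith) (mul_nonneg (by linarith) hY)
      nlinarith
    have h4 := mul_le_mul_of_nonneg_right h2 hl
    have h5 := mul_nonneg ((neg_nonneg.2 h).trans h2) hY
    linarith

theorem one_abs {Yz Xz Yb Xb zx zy h κ Rr D1 D2 : ℝ} (e1 : D1 = (1 - κ) + (2 * zx - h))
    (e2 : D2 = (1 - κ) - (2 * zx - h)) (hκ : |κ| ≤ 3 / 200) (hm : |2 * zx - h| ≤ 1 / 2)
    (hD : (2 * zx - h) ^ 2 + 2 * κ ≤ 7 / 144)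
    (hrem : ∀ ω g : ℝ, 0 ≤ ω → ω ≤ 144 / 137 → 0 ≤ g → g ≤ 144 / 137 * (66 / 65) →
      |(2 * zx - h) ^ 2 * g * (h * (Yz * Yb) - zy * (Xb * Yz + Xz * Yb)) -
        ω * (2 * zx - h) * (κ * (Yz * Yb) + (Yb * zx - Xb * zy) * (Yz * zx - Xz * zy))| ≤ Rr) :
    ((Yz + (Yb * zx - Xb * zy) + (Yb + (Yz * zx - Xz * zy))) ^ 2 / D1 +
      (Yz + (Yb * zx - Xb * zy) - (Yb + (Yz * zx - Xz * zy))) ^ 2 / D2) / 2 ≤
      Yz ^ 2 + Yb ^ 2 + 144 / 137 *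
        ((((zx - h) * Yz + Xz * zy) ^ 2 + 3 / 200 * (Yz ^ 2 + (Yz * zx - Xz * zy) ^ 2)) +
         (((zx - h) * Yb + Xb * zy) ^ 2 + 3 / 200 * (Yb ^ 2 + (Yb * zx - Xb * zy) ^ 2))) +
      2 * (1 / (1 - κ)) * (h * (Yz * Yb) - zy * (Xb * Yz + Xz * Yb)) + 2 * Rr := by
  have k1 := abs_le.1 hκ
  have k2 := abs_le.1 hm
  have hμ : 197 / 200 ≤ 1 - κ := by linarith [k1.2]
  have hμ0 : 0 < 1 - κ := by linarith
  have hD1 : 0 < D1 := by rw [e1]; linarith [k2.1]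
  have hD2 : 0 < D2 := by rw [e2]; linarith [k2.2]
  have hDD : D1 * D2 = (1 - κ) ^ 2 - (2 * zx - h) ^ 2 := by rw [e1, e2]; ring
  have hDl : 137 / 144 ≤ D1 * D2 := by rw [hDD]; nlinarith [sq_nonneg κ]
  have hDp : 0 < D1 * D2 := mul_pos hD1 hD2
  rw [pair_id e1 e2 hD1.ne' hD2.ne']
  set ω := 1 / (D1 * D2) with hω
  have hω0 : 0 ≤ ω := by rw [hω]; positivity
  have hω1 : ω ≤ 144 / 137 := by
    rw [hω, div_le_div_iff₀ hDp (by norm_num)]; linarith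
  set g := ω / (1 - κ) with hg
  have hg0 : 0 ≤ g := by rw [hg]; positivity
  have hg1 : g ≤ 144 / 137 * (66 / 65) := by
    rw [hg, div_le_iff₀ hμ0]; nlinarith
  have hid : ω * (1 - κ) = 1 / (1 - κ) + (2 * zx - h) ^ 2 * g := by
    have h3 : ω * ((1 - κ) ^ 2 - (2 * zx - h) ^ 2) = 1 := by
      rw [← hDD, hω]; field_simp
    rw [hg]
    field_simp
    linarith
  have hr := hrem ω g hω0 hω1 hg0 hg1
  have hr2 := (le_abs_self _).trans hr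
  have q1 := kap_sq (Y := Yz) (l := Yz * zx - Xz * zy) hκ (by linarith [k1.2])
  have q2 := kap_sq (Y := Yb) (l := Yb * zx - Xb * zy) hκ (by linarith [k1.2])
  have q3 : ω * ((((zx - h) * Yz + Xz * zy) ^ 2 + κ * ((1 - κ) * Yz ^ 2 - (Yz * zx - Xz * zy) ^ 2)) +
         (((zx - h) * Yb + Xb * zy) ^ 2 + κ * ((1 - κ) * Yb ^ 2 - (Yb * zx - Xb * zy) ^ 2))) ≤ 144 / 137 *
        ((((zx - h) * Yz + Xz * zy) ^ 2 + 3 / 200 * (Yz ^ 2 + (Yz * zx - Xz * zy) ^ 2)) +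
         (((zx - h) * Yb + Xb * zy) ^ 2 + 3 / 200 * (Yb ^ 2 + (Yb * zx - Xb * zy) ^ 2))) := by
    refine (mul_le_mul_of_nonneg_left (add_le_add (add_le_add le_rfl q1) (add_le_add le_rfl q2)) hω0).trans ?_
    exact mul_le_mul_of_nonneg_right hω1 (by positivity)
  set L := h * (Yz * Yb) - zy * (Xb * Yz + Xz * Yb) with hL
  have q4 : ω * (2 * ((1 - κ) * L -
           (2 * zx - h) * (κ * (Yz * Yb) + (Yb * zx - Xb * zy) * (Yz * zx - Xz * zy)))) =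
      2 * (1 / (1 - κ)) * L + 2 * ((2 * zx - h) ^ 2 * g * L -
        ω * (2 * zx - h) * (κ * (Yz * Yb) + (Yb * zx - Xb * zy) * (Yz * zx - Xz * zy))) := by
    linear_combination 2 * L * hid
  rw [mul_add ω _ (2 * _), q4]
  linarith

/-! ### the concrete coefficients; `r = ± sqrt 3` -/

section concrete

/-- `Re (e z0)` -/
noncomputable def fzx (ax ay sx sy r : ℝ) : ℝ := ((ax + 1 / 2 * sx) + r * (ay + 3 / 2 * sy)) / 2
/-- `Im (e z0)` -/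
noncomputable def fzy (ax ay sx sy r : ℝ) : ℝ := ((ay + 3 / 2 * sy) - r * (ax + 1 / 2 * sx)) / 2
/-- `Re (e N0)` -/
noncomputable def fh (ax ay sx sy r : ℝ) : ℝ := ((3 * ax + 15 / 2 * sx) + r * (3 * ay + 5 / 2 * sy)) / 2
/-- `Re ((N0 - z0) conj z0)` -/
noncomputable def fκ (ax ay sx sy : ℝ) : ℝ :=
  (2 * ax + 7 * sx) * (ax + 1 / 2 * sx) + (2 * ay + sy) * (ay + 3 / 2 * sy)
/-- `Re (e ρ)` -/
noncomputable def fXz (x y r : ℝ) : ℝ := (x + r * y) / 2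
/-- `Im (e ρ)` -/
noncomputable def fYz (x y r : ℝ) : ℝ := (y - r * x) / 2
/-- `Re xb` -/
noncomputable def fXb (b2 b3 r : ℝ) : ℝ := (-4 * b2 + 5 * r * b3) / 8
/-- `Im xb` -/
noncomputable def fYb (b2 b3 r : ℝ) : ℝ := -(4 * r * b2 + 11 * b3) / 8

variable {ax ay sx sy α β r : ℝ}

theorem m1_le (hα : 0 ≤ α) (hβ : 0 ≤ β) (ha : ax ^ 2 + ay ^ 2 = α ^ 2) (hs : sx ^ 2 + sy ^ 2 = β ^ 2) (hr : r ^ 2 = 3) :
    |2 * fzx ax ay sx sy r - fh ax ay sx sy r| ≤ α + 3279 / 1000 * β := by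
  have h := lin4 (p1 := -(1 / 2)) (p2 := -(r / 2)) (q1 := -(13 / 4)) (q2 := r / 4) (P := 1) (Q := 3279 / 1000)
    (by norm_num) (by norm_num) hα hβ ha hs (by linarith only [hr]) (by linarith only [hr])
  have e : 2 * fzx ax ay sx sy r - fh ax ay sx sy r =
      -(1 / 2) * ax + -(r / 2) * ay + (-(13 / 4) * sx + r / 4 * sy) := by
    unfold fzx fh; ring
  rw [e]; linarith

theorem k_le (hα : 0 ≤ α) (hβ : 0 ≤ β) (ha : ax ^ 2 + ay ^ 2 = α ^ 2) (hs : sx ^ 2 + sy ^ 2 = β ^ 2) :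
    |fκ ax ay sx sy| ≤ 2 * α ^ 2 + 8 * (α * β) + 7 / 2 * β ^ 2 := by
  have h1 : |8 * ax * sx + 4 * ay * sy| ≤ 8 * (α * β) := by
    refine abs_le_of_sq_le_sq ?_ (by positivity)
    have h2 : (8 * (α * β)) ^ 2 = 64 * ((ax ^ 2 + ay ^ 2) * (sx ^ 2 + sy ^ 2)) := by rw [ha, hs]; ring
    rw [h2]
    nlinarith [sq_nonneg (ax * sy - ay * sx), sq_nonneg (ax * sy), sq_nonneg (ay * sx), sq_nonneg (ay * sy),
      sq_nonneg (ax * sy - 1 / 2 * (ay * sx))]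
  have e : fκ ax ay sx sy = 2 * (ax ^ 2 + ay ^ 2) + (8 * ax * sx + 4 * ay * sy) + 7 / 2 * sx ^ 2 + 3 / 2 * sy ^ 2 := by
    unfold fκ; ring
  have k := abs_le.1 h1
  rw [e, ha, abs_le]
  constructor <;> nlinarith [sq_nonneg sx, sq_nonneg sy, sq_nonneg α, k.1, k.2]

theorem k_le2 (hα : 0 ≤ α) (hβ : 0 ≤ β) (hu : α + 8 / 5 * β ≤ 1 / 12) :
    2 * α ^ 2 + 8 * (α * β) + 7 / 2 * β ^ 2 ≤ 3 / 200 := by
  have h1 : (α + 8 / 5 * β) ^ 2 ≤ (1 / 12) ^ 2 := pow_le_pow_left₀ (by positivity) hu 2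
  nlinarith [sq_nonneg (α - 17 / 5 * β)]

theorem D_le (hα : 0 ≤ α) (hβ : 0 ≤ β) (hu : α + 8 / 5 * β ≤ 1 / 12) {m κ : ℝ}
    (hm : |m| ≤ α + 3279 / 1000 * β) (hk : |κ| ≤ 2 * α ^ 2 + 8 * (α * β) + 7 / 2 * β ^ 2) :
    m ^ 2 + 2 * κ ≤ 7 / 144 := by
  have h1 : (α + 8 / 5 * β) ^ 2 ≤ (1 / 12) ^ 2 := pow_le_pow_left₀ (by positivity) hu 2
  have h2 : m ^ 2 ≤ (α + 3279 / 1000 * β) ^ 2 := by
    rw [← sq_abs m]; exact pow_le_pow_left₀ (abs_nonneg _) hm 2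
  have h3 := (le_abs_self _).trans hk
  nlinarith [sq_nonneg (α - 1 / 25 * β), mul_nonneg hα hβ, mul_nonneg hβ hβ, mul_nonneg hα hα]

theorem L_eq (hr : r ^ 2 = 3) (x y b2 b3 : ℝ) :
    fh ax ay sx sy r * (fYz x y r * fYb b2 b3 r) -
        fzy ax ay sx sy r * (fXb b2 b3 r * fYz x y r + fXz x y r * fYb b2 b3 r) =
      (9 / 8 * ax + 9 / 8 * r * ay + (45 / 16 * sx + 15 / 16 * r * sy)) * (b2 * x) +
      (-(7 / 8) * r * ax + -(5 / 8) * ay + (-(19 / 16) * r * sx + -(3 / 16) * sy)) * (b2 * y) +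
      (7 / 32 * r * ax + 125 / 32 * ay + (139 / 64 * r * sx + 243 / 64 * sy)) * (b3 * x) +
      (-(51 / 32) * ax + -(27 / 32) * r * ay + (-(183 / 64) * sx + -(37 / 64) * r * sy)) * (b3 * y) := by
  unfold fh fYz fYb fzy fXb fXz
  linear_combination (((3 * ax + 15 / 2 * sx) + r * (3 * ay + 5 / 2 * sy)) / 2 * b2 * x / 4 +
    ((ay + 3 / 2 * sy) - r * (ax + 1 / 2 * sx)) / 2 * (4 * b2 * y + 5 * b3 * x) / 16 +
    (3 * ay + 5 / 2 * sy) * (-4 * b2 * y + 11 * b3 * x) / 32 - 6 / 32 * (ax + 1 / 2 * sx) * b3 * y) * hr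

theorem YY_eq (hr : r ^ 2 = 3) (x y b2 b3 : ℝ) : fYz x y r * fYb b2 b3 r =
    3 / 4 * (b2 * x) + -(r / 4) * (b2 * y) + 11 / 16 * r * (b3 * x) + -(11 / 16) * (b3 * y) := by
  unfold fYz fYb
  linear_combination (b2 * x / 4) * hr

theorem lb_eq (hr : r ^ 2 = 3) (b2 b3 : ℝ) :
    fYb b2 b3 r * fzx ax ay sx sy r - fXb b2 b3 r * fzy ax ay sx sy r =
      (-(r / 2) * ax + -(1 / 2) * ay + (-(r / 4) * sx + -(3 / 4) * sy)) * b2 +
      (1 / 4 * ax + -r * ay + (1 / 8 * sx + -(3 / 2 * r) * sy)) * b3 := by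
  unfold fYb fzx fXb fzy
  linear_combination ((-4 * b2 * (ay + 3 / 2 * sy) + 5 * b3 * (ax + 1 / 2 * sx)) / 16) * hr

theorem lz_eq (hr : r ^ 2 = 3) (x y : ℝ) :
    fYz x y r * fzx ax ay sx sy r - fXz x y r * fzy ax ay sx sy r =
      -(ay + 3 / 2 * sy) * x + (ax + 1 / 2 * sx) * y := by
  unfold fYz fzx fXz fzy
  linear_combination ((y * (ax + 1 / 2 * sx) - x * (ay + 3 / 2 * sy)) / 4) * hr

theorem rem_r (hα : 0 ≤ α) (hβ : 0 ≤ β) (ha : ax ^ 2 + ay ^ 2 = α ^ 2) (hs : sx ^ 2 + sy ^ 2 = β ^ 2) (hr : r ^ 2 = 3)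
    (x y b2 b3 : ℝ) {ω g : ℝ} (hω : 0 ≤ ω) (hω1 : ω ≤ 144 / 137) (hg : 0 ≤ g) (hg1 : g ≤ 144 / 137 * (66 / 65)) :
    |(2 * fzx ax ay sx sy r - fh ax ay sx sy r) ^ 2 * g * (fh ax ay sx sy r * (fYz x y r * fYb b2 b3 r) -
        fzy ax ay sx sy r * (fXb b2 b3 r * fYz x y r + fXz x y r * fYb b2 b3 r)) -
        ω * (2 * fzx ax ay sx sy r - fh ax ay sx sy r) * (fκ ax ay sx sy * (fYz x y r * fYb b2 b3 r) +
          (fYb b2 b3 r * fzx ax ay sx sy r - fXb b2 b3 r * fzy ax ay sx sy r) *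
          (fYz x y r * fzx ax ay sx sy r - fXz x y r * fzy ax ay sx sy r))| ≤
      144 / 137 * ((α + 8 / 5 * β) ^ 2 * (479 / 100 * α + 319 / 25 * (8 / 5 * β)) * (|b2| * |x|) +
        (α + 8 / 5 * β) ^ 2 * (177 / 50 * α + 198 / 25 * (8 / 5 * β)) * (|b2| * |y|) +
        (α + 8 / 5 * β) ^ 2 * (203 / 25 * α + 223 / 10 * (8 / 5 * β)) * (|b3| * |x|) +
        (α + 8 / 5 * β) ^ 2 * (533 / 100 * α + 1237 / 100 * (8 / 5 * β)) * (|b3| * |y|)) := by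
  have r0 : |r| ≤ 17321 / 10000 := abs_le_of_sq_le_sq (by rw [hr]; norm_num) (by norm_num)
  refine rem_aux (abs_nonneg _) (abs_nonneg _) (abs_nonneg _) (abs_nonneg _)
    (l2x := 9 / 4 * α + 406 / 125 * β) (l2y := 41 / 25 * α + 1033 / 500 * β) (l3x := 157 / 40 * α + 1069 / 200 * β)
    (l3y := 2163 / 1000 * α + 303 / 100 * β) (y2x := 3 / 4) (y2y := 217 / 500) (y3x := 1191 / 1000) (y3y := 11 / 16)
    (p2 := α + 867 / 1000 * β) (p3 := 7 / 4 * α + 1301 / 500 * β) (qx := α + 3 / 2 * β) (qy := α + 1 / 2 * β)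
    ?_ ?_ ?_ ?_ (m1_le hα hβ ha hs hr) (k_le hα hβ ha hs) hω hω1 hg hg1
    (cub2x hα hβ) (cub2y hα hβ) (cub3x hα hβ) (cub3y hα hβ)
  · rw [L_eq hr]
    have l1 := lin4 (p1 := 9 / 8) (p2 := 9 / 8 * r) (q1 := 45 / 16) (q2 := 15 / 16 * r) (P := 9 / 4) (Q := 406 / 125)
      (by norm_num) (by norm_num) hα hβ ha hs (by linarith only [hr]) (by linarith only [hr])
    have l2 := lin4 (p1 := -(7 / 8) * r) (p2 := -(5 / 8)) (q1 := -(19 / 16) * r) (q2 := -(3 / 16)) (P := 41 / 25)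
      (Q := 1033 / 500) (by norm_num) (by norm_num) hα hβ ha hs (by linarith only [hr]) (by linarith only [hr])
    have l3 := lin4 (p1 := 7 / 32 * r) (p2 := 125 / 32) (q1 := 139 / 64 * r) (q2 := 243 / 64) (P := 157 / 40)
      (Q := 1069 / 200) (by norm_num) (by norm_num) hα hβ ha hs (by linarith only [hr]) (by linarith only [hr])
    have l4 := lin4 (p1 := -(51 / 32)) (p2 := -(27 / 32) * r) (q1 := -(183 / 64)) (q2 := -(37 / 64) * r)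
      (P := 2163 / 1000) (Q := 303 / 100) (by norm_num) (by norm_num) hα hβ ha hs (by linarith only [hr]) (by linarith only [hr])
    refine (abs_add_le _ _).trans (add_le_add ((abs_add_le _ _).trans (add_le_add ((abs_add_le _ _).trans
      (add_le_add ?_ ?_)) ?_)) ?_)
    all_goals rw [abs_mul, abs_mul]
    · exact mul_le_mul_of_nonneg_right l1 (by positivity)
    · exact mul_le_mul_of_nonneg_right l2 (by positivity)
    · exact mul_le_mul_of_nonneg_right l3 (by positivity)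
    · exact mul_le_mul_of_nonneg_right l4 (by positivity)
  · rw [YY_eq hr]
    refine (abs_add_le _ _).trans (add_le_add ((abs_add_le _ _).trans (add_le_add ((abs_add_le _ _).trans
      (add_le_add ?_ ?_)) ?_)) ?_)
    · rw [abs_mul, abs_mul b2 x]
      exact mul_le_mul_of_nonneg_right (by norm_num) (by positivity)
    · rw [abs_mul, abs_mul b2 y]
      refine mul_le_mul_of_nonneg_right ?_ (by positivity)
      rw [abs_neg, abs_div, abs_of_pos (by norm_num : (0 : ℝ) < 4)]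
      linarith
    · rw [abs_mul, abs_mul b3 x]
      refine mul_le_mul_of_nonneg_right ?_ (by positivity)
      rw [abs_mul, abs_of_pos (by norm_num : (0 : ℝ) < 11 / 16)]
      linarith
    · rw [abs_mul, abs_mul b3 y]
      exact mul_le_mul_of_nonneg_right (by norm_num) (by positivity)
  · rw [lb_eq hr]
    have l1 := lin4 (p1 := -(r / 2)) (p2 := -(1 / 2)) (q1 := -(r / 4)) (q2 := -(3 / 4)) (P := 1) (Q := 867 / 1000)
      (by norm_num) (by norm_num) hα hβ ha hs (by linarith only [hr]) (by linarith only [hr])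
    have l2 := lin4 (p1 := 1 / 4) (p2 := -r) (q1 := 1 / 8) (q2 := -(3 / 2 * r)) (P := 7 / 4) (Q := 1301 / 500)
      (by norm_num) (by norm_num) hα hβ ha hs (by linarith only [hr]) (by linarith only [hr])
    refine (abs_add_le _ _).trans (add_le_add ?_ ?_)
    · rw [abs_mul]; exact mul_le_mul_of_nonneg_right (by linarith) (abs_nonneg _)
    · rw [abs_mul]; exact mul_le_mul_of_nonneg_right l2 (abs_nonneg _)
  · rw [lz_eq hr]
    have l1 := lin4 (p1 := 0) (p2 := -1) (q1 := 0) (q2 := -(3 / 2)) (P := 1) (Q := 3 / 2)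
      (by norm_num) (by norm_num) hα hβ ha hs (by norm_num) (by norm_num)
    have l2 := lin4 (p1 := 1) (p2 := 0) (q1 := 1 / 2) (q2 := 0) (P := 1) (Q := 1 / 2)
      (by norm_num) (by norm_num) hα hβ ha hs (by norm_num) (by norm_num)
    have e1 : -(ay + 3 / 2 * sy) = 0 * ax + -1 * ay + (0 * sx + -(3 / 2) * sy) := by ring
    have e2 : ax + 1 / 2 * sx = 1 * ax + 0 * ay + (1 / 2 * sx + 0 * sy) := by ring
    refine (abs_add_le _ _).trans (add_le_add ?_ ?_)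
    · rw [abs_mul, e1]; exact mul_le_mul_of_nonneg_right (by linarith only [l1]) (abs_nonneg _)
    · rw [abs_mul, e2]; exact mul_le_mul_of_nonneg_right (by linarith only [l2]) (abs_nonneg _)

/-- the average of `Im (x conj F)² / (|F|² φ')` over `t`, `t + π` -/
noncomputable def avg (ax ay sx sy x y b2 b3 r : ℝ) : ℝ :=
  ((fYz x y r + (fYb b2 b3 r * fzx ax ay sx sy r - fXb b2 b3 r * fzy ax ay sx sy r) +
      (fYb b2 b3 r + (fYz x y r * fzx ax ay sx sy r - fXz x y r * fzy ax ay sx sy r))) ^ 2 /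
      ((1 - fκ ax ay sx sy) + (2 * fzx ax ay sx sy r - fh ax ay sx sy r)) +
    (fYz x y r + (fYb b2 b3 r * fzx ax ay sx sy r - fXb b2 b3 r * fzy ax ay sx sy r) -
      (fYb b2 b3 r + (fYz x y r * fzx ax ay sx sy r - fXz x y r * fzy ax ay sx sy r))) ^ 2 /
      ((1 - fκ ax ay sx sy) - (2 * fzx ax ay sx sy r - fh ax ay sx sy r))) / 2

/-- the bound of the remainder -/
noncomputable def Rm (α β x y b2 b3 : ℝ) : ℝ :=
  144 / 137 * ((α + 8 / 5 * β) ^ 2 * (479 / 100 * α + 319 / 25 * (8 / 5 * β)) * (|b2| * |x|) +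
        (α + 8 / 5 * β) ^ 2 * (177 / 50 * α + 198 / 25 * (8 / 5 * β)) * (|b2| * |y|) +
        (α + 8 / 5 * β) ^ 2 * (203 / 25 * α + 223 / 10 * (8 / 5 * β)) * (|b3| * |x|) +
        (α + 8 / 5 * β) ^ 2 * (533 / 100 * α + 1237 / 100 * (8 / 5 * β)) * (|b3| * |y|))

theorem one_r (hα : 0 ≤ α) (hβ : 0 ≤ β) (ha : ax ^ 2 + ay ^ 2 = α ^ 2) (hs : sx ^ 2 + sy ^ 2 = β ^ 2)
    (hu : α + 8 / 5 * β ≤ 1 / 12) (hr : r ^ 2 = 3) (x y b2 b3 : ℝ) :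
    avg ax ay sx sy x y b2 b3 r ≤
      fYz x y r ^ 2 + fYb b2 b3 r ^ 2 + 144 / 137 *
        ((((fzx ax ay sx sy r - fh ax ay sx sy r) * fYz x y r + fXz x y r * fzy ax ay sx sy r) ^ 2 +
            3 / 200 * (fYz x y r ^ 2 + (-(ay + 3 / 2 * sy) * x + (ax + 1 / 2 * sx) * y) ^ 2)) +
         (((fzx ax ay sx sy r - fh ax ay sx sy r) * fYb b2 b3 r + fXb b2 b3 r * fzy ax ay sx sy r) ^ 2 +
            3 / 200 * (fYb b2 b3 r ^ 2 + (1 / 12 * (|b2| + 7 / 4 * |b3|)) ^ 2))) +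
      2 * (1 / (1 - fκ ax ay sx sy)) * (fh ax ay sx sy r * (fYz x y r * fYb b2 b3 r) -
        fzy ax ay sx sy r * (fXb b2 b3 r * fYz x y r + fXz x y r * fYb b2 b3 r)) + 2 * Rm α β x y b2 b3 := by
  have hm := m1_le hα hβ ha hs hr
  have hk := k_le hα hβ ha hs
  have hk2 := hk.trans (k_le2 hα hβ hu)
  have h := one_abs (Yz := fYz x y r) (Xz := fXz x y r) (Yb := fYb b2 b3 r) (Xb := fXb b2 b3 r)
    (zx := fzx ax ay sx sy r) (zy := fzy ax ay sx sy r) (h := fh ax ay sx sy r) (κ := fκ ax ay sx sy) rfl rfl hk2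
    (hm.trans (by linarith)) (D_le hα hβ hu hm hk)
    (fun ω g hω hω1 hg hg1 => rem_r hα hβ ha hs hr x y b2 b3 hω hω1 hg hg1)
  refine h.trans ?_
  rw [lz_eq hr]
  have hlb : (fYb b2 b3 r * fzx ax ay sx sy r - fXb b2 b3 r * fzy ax ay sx sy r) ^ 2 ≤
      (1 / 12 * (|b2| + 7 / 4 * |b3|)) ^ 2 := by
    rw [← sq_abs (fYb b2 b3 r * fzx ax ay sx sy r - fXb b2 b3 r * fzy ax ay sx sy r)]
    refine pow_le_pow_left₀ (abs_nonneg _) ?_ 2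
    rw [lb_eq hr]
    have l1 := lin4 (p1 := -(r / 2)) (p2 := -(1 / 2)) (q1 := -(r / 4)) (q2 := -(3 / 4)) (P := 1) (Q := 867 / 1000)
      (by norm_num) (by norm_num) hα hβ ha hs (by linarith only [hr]) (by linarith only [hr])
    have l2 := lin4 (p1 := 1 / 4) (p2 := -r) (q1 := 1 / 8) (q2 := -(3 / 2 * r)) (P := 7 / 4) (Q := 1301 / 500)
      (by norm_num) (by norm_num) hα hβ ha hs (by linarith only [hr]) (by linarith only [hr])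
    have g1 : |(-(r / 2) * ax + -(1 / 2) * ay + (-(r / 4) * sx + -(3 / 4) * sy)) * b2| ≤ 1 / 12 * |b2| := by
      rw [abs_mul]; exact mul_le_mul_of_nonneg_right (by linarith only [l1, hu, hα, hβ]) (abs_nonneg _)
    have g2 : |(1 / 4 * ax + -r * ay + (1 / 8 * sx + -(3 / 2 * r) * sy)) * b3| ≤ 7 / 48 * |b3| := by
      rw [abs_mul]; exact mul_le_mul_of_nonneg_right (by linarith only [l2, hu, hα, hβ]) (abs_nonneg _)
    refine (abs_add_le _ _).trans ?_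
    linarith only [g1, g2]
  unfold Rm
  linarith only [hlb]

theorem q_a (u v : ℝ) :
    411 / 100 * (2 / 137 * (α * (479 / 100 * u + 203 / 25 * v))) ^ 2 +
      88 / 5 * (2 / 137 * (α * (177 / 50 * u + 533 / 100 * v))) ^ 2 ≤
      (4 / 125 * α) ^ 2 * (190 * u ^ 2 + 257 * v ^ 2) := by
  have h : 411 / 100 * (2 / 137 * (479 / 100 * u + 203 / 25 * v)) ^ 2 +
      88 / 5 * (2 / 137 * (177 / 50 * u + 533 / 100 * v)) ^ 2 ≤
      (4 / 125) ^ 2 * (190 * u ^ 2 + 257 * v ^ 2) := by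
    nlinarith [sq_nonneg (u - 22 / 25 * v), sq_nonneg u, sq_nonneg v]
  have h2 := mul_le_mul_of_nonneg_left h (sq_nonneg α)
  calc _ = α ^ 2 * (411 / 100 * (2 / 137 * (479 / 100 * u + 203 / 25 * v)) ^ 2 +
      88 / 5 * (2 / 137 * (177 / 50 * u + 533 / 100 * v)) ^ 2) := by ring
    _ ≤ _ := h2
    _ = _ := by ring

theorem q_s (u v : ℝ) :
    411 / 100 * (2 / 137 * (8 / 5 * β * (319 / 25 * u + 223 / 10 * v))) ^ 2 +
      88 / 5 * (2 / 137 * (8 / 5 * β * (198 / 25 * u + 1237 / 100 * v))) ^ 2 ≤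
      (39 / 500 * (8 / 5 * β)) ^ 2 * (190 * u ^ 2 + 257 * v ^ 2) := by
  have h : 411 / 100 * (2 / 137 * (319 / 25 * u + 223 / 10 * v)) ^ 2 +
      88 / 5 * (2 / 137 * (198 / 25 * u + 1237 / 100 * v)) ^ 2 ≤
      (39 / 500) ^ 2 * (190 * u ^ 2 + 257 * v ^ 2) := by
    nlinarith [sq_nonneg (u - 21 / 25 * v), sq_nonneg u, sq_nonneg v]
  have h2 := mul_le_mul_of_nonneg_left h (sq_nonneg (8 / 5 * β))
  calc _ = (8 / 5 * β) ^ 2 * (411 / 100 * (2 / 137 * (319 / 25 * u + 223 / 10 * v)) ^ 2 +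
      88 / 5 * (2 / 137 * (198 / 25 * u + 1237 / 100 * v)) ^ 2) := by ring
    _ ≤ _ := h2
    _ = _ := by ring

theorem V_bound (hα : 0 ≤ α) (hβ : 0 ≤ β) (ha : ax ^ 2 + ay ^ 2 = α ^ 2) (hs : sx ^ 2 + sy ^ 2 = β ^ 2)
    (hu : α + 8 / 5 * β ≤ 1 / 12) (b2 b3 : ℝ) :
    411 / 100 * (66 / 65 * |(9 / 4 * ax * b2 + 125 / 16 * ay * b3) + (45 / 8 * sx * b2 + 243 / 32 * sy * b3)| +
        2 / 137 * ((479 / 100 * α + 319 / 25 * (8 / 5 * β)) * |b2| + (203 / 25 * α + 223 / 10 * (8 / 5 * β)) * |b3|)) ^ 2 +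
      88 / 5 * (66 / 65 * |(-(5 / 4) * ay * b2 - 51 / 16 * ax * b3) + (-(3 / 8) * sy * b2 - 183 / 32 * sx * b3)| +
        2 / 137 * ((177 / 50 * α + 198 / 25 * (8 / 5 * β)) * |b2| +
          (533 / 100 * α + 1237 / 100 * (8 / 5 * β)) * |b3|)) ^ 2 ≤
      (873 / 10000) ^ 2 * (190 * b2 ^ 2 + 257 * b3 ^ 2) := by
  have hF : 0 ≤ 190 * b2 ^ 2 + 257 * b3 ^ 2 := by positivity
  have a1 : 411 / 100 * (66 / 65 * |9 / 4 * ax * b2 + 125 / 16 * ay * b3|) ^ 2 +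
      88 / 5 * (66 / 65 * |-(5 / 4) * ay * b2 - 51 / 16 * ax * b3|) ^ 2 ≤
      (66 / 65 * α) ^ 2 * (190 * b2 ^ 2 + 257 * b3 ^ 2) := by
    rw [mul_pow, mul_pow, mul_pow, sq_abs, sq_abs]
    have := U0a b2 b3 ha
    linarith
  have a2 := q_a (α := α) |b2| |b3|
  rw [sq_abs, sq_abs] at a2
  have a3 := mink (by norm_num) (by norm_num) (by positivity) (by positivity) hF a1 a2
  have s1 : 411 / 100 * (66 / 65 * |45 / 8 * sx * b2 + 243 / 32 * sy * b3|) ^ 2 +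
      88 / 5 * (66 / 65 * |-(3 / 8) * sy * b2 - 183 / 32 * sx * b3|) ^ 2 ≤
      (66 / 65 * (3 / 2 * β)) ^ 2 * (190 * b2 ^ 2 + 257 * b3 ^ 2) := by
    rw [mul_pow, mul_pow, mul_pow (66 / 65 : ℝ) (3 / 2 * β), sq_abs, sq_abs]
    have := U0s b2 b3 hs
    linarith
  have s2 := q_s (β := β) |b2| |b3|
  rw [sq_abs, sq_abs] at s2
  have s3 := mink (by norm_num) (by norm_num) (by positivity) (by positivity) hF s1 s2
  have t3 := mink (by norm_num) (by norm_num) (by positivity) (by positivity) hF a3 s3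
  have c1 : 66 / 65 * α + 4 / 125 * α + (66 / 65 * (3 / 2 * β) + 39 / 500 * (8 / 5 * β)) ≤ 873 / 10000 := by linarith
  have c2 : 0 ≤ 66 / 65 * α + 4 / 125 * α + (66 / 65 * (3 / 2 * β) + 39 / 500 * (8 / 5 * β)) := by positivity
  have t4 := t3.trans (mul_le_mul_of_nonneg_right (pow_le_pow_left₀ c2 c1 2) hF)
  refine le_trans (add_le_add ?_ ?_) t4
  · refine mul_le_mul_of_nonneg_left (pow_le_pow_left₀ (by positivity) ?_ 2) (by norm_num)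
    have := abs_add_le (9 / 4 * ax * b2 + 125 / 16 * ay * b3) (45 / 8 * sx * b2 + 243 / 32 * sy * b3)
    linarith
  · refine mul_le_mul_of_nonneg_left (pow_le_pow_left₀ (by positivity) ?_ 2) (by norm_num)
    have := abs_add_le (-(5 / 4) * ay * b2 - 51 / 16 * ax * b3) (-(3 / 8) * sy * b2 - 183 / 32 * sx * b3)
    linarith

theorem young {x V w : ℝ} (hw : 0 < w) : 2 * (|x| * V) ≤ 1 / w * x ^ 2 + w * V ^ 2 := by
  have h : 0 ≤ w * (V - 1 / w * |x|) ^ 2 := by positivity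
  have e : w * (V - 1 / w * |x|) ^ 2 = 1 / w * |x| ^ 2 + w * V ^ 2 - 2 * (|x| * V) := by
    field_simp
    ring
  rw [e, sq_abs] at h
  linarith

theorem n2_aux (x y : ℝ) : (1 / 12 * (|x| + |y|)) ^ 2 ≤ 1 / 72 * (x ^ 2 + y ^ 2) := by
  rw [← sq_abs x, ← sq_abs y]; nlinarith [sq_nonneg (|x| - |y|)]

theorem n3_aux (b2 b3 : ℝ) : (1 / 12 * (|b2| + 7 / 4 * |b3|)) ^ 2 ≤ 1 / 144 * (2 * b2 ^ 2 + 49 / 8 * b3 ^ 2) := by
  rw [← sq_abs b2, ← sq_abs b3]; nlinarith [sq_nonneg (|b2| - 7 / 4 * |b3|)]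

theorem od_aux {c x U : ℝ} (h0 : 0 ≤ c) (h1 : c ≤ 66 / 65) : 2 * c * (x * U) ≤ 2 * (|x| * (66 / 65 * |U|)) := by
  have t1 : x * U ≤ |x| * |U| := by rw [← abs_mul]; exact le_abs_self _
  have t2 := mul_le_mul_of_nonneg_left t1 h0
  have t3 := mul_le_mul_of_nonneg_right h1 (by positivity : 0 ≤ |x| * |U|)
  linarith only [t2, t3]

theorem n1_bd (hα : 0 ≤ α) (hβ : 0 ≤ β) (ha : ax ^ 2 + ay ^ 2 = α ^ 2) (hs : sx ^ 2 + sy ^ 2 = β ^ 2)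
    (hu : α + 8 / 5 * β ≤ 1 / 12) (x y : ℝ) :
    (-(ay + 3 / 2 * sy) * x + (ax + 1 / 2 * sx) * y) ^ 2 ≤ 1 / 72 * (x ^ 2 + y ^ 2) := by
  refine le_trans ?_ (n2_aux x y)
  rw [← sq_abs (-(ay + 3 / 2 * sy) * x + (ax + 1 / 2 * sx) * y)]
  refine pow_le_pow_left₀ (abs_nonneg _) ?_ 2
  have l1 := lin4 (p1 := 0) (p2 := -1) (q1 := 0) (q2 := -(3 / 2)) (P := 1) (Q := 3 / 2)
    (by norm_num) (by norm_num) hα hβ ha hs (by norm_num) (by norm_num)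
  have l2 := lin4 (p1 := 1) (p2 := 0) (q1 := 1 / 2) (q2 := 0) (P := 1) (Q := 1 / 2)
    (by norm_num) (by norm_num) hα hβ ha hs (by norm_num) (by norm_num)
  have e1 : -(ay + 3 / 2 * sy) = 0 * ax + -1 * ay + (0 * sx + -(3 / 2) * sy) := by ring
  have e2 : ax + 1 / 2 * sx = 1 * ax + 0 * ay + (1 / 2 * sx + 0 * sy) := by ring
  have g1 : |-(ay + 3 / 2 * sy) * x| ≤ 1 / 12 * |x| := by
    rw [abs_mul, e1]; exact mul_le_mul_of_nonneg_right (by linarith only [l1, hu, hα, hβ]) (abs_nonneg _)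
  have g2 : |(ax + 1 / 2 * sx) * y| ≤ 1 / 12 * |y| := by
    rw [abs_mul, e2]; exact mul_le_mul_of_nonneg_right (by linarith only [l2, hu, hα, hβ]) (abs_nonneg _)
  refine (abs_add_le _ _).trans ?_
  linarith only [g1, g2]

theorem y3_eq (hr : r ^ 2 = 3) (x y : ℝ) :
    ((fzx ax ay sx sy r - fh ax ay sx sy r) * fYz x y r + fXz x y r * fzy ax ay sx sy r) ^ 2 +
      ((fzx ax ay sx sy (-r) - fh ax ay sx sy (-r)) * fYz x y (-r) + fXz x y (-r) * fzy ax ay sx sy (-r)) ^ 2 =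
      1 / 8 * ((7 * ay * x - 5 * ax * y) + (9 / 2 * sy * x - 17 / 2 * sx * y)) ^ 2 +
      3 / 8 * ((ax * x - ay * y) + (13 / 2 * sx * x + 1 / 2 * sy * y)) ^ 2 := by
  have a1 : (fzx ax ay sx sy r - fh ax ay sx sy r) * fYz x y r + fXz x y r * fzy ax ay sx sy r =
      1 / 4 * ((7 * ay * x - 5 * ax * y) + (9 / 2 * sy * x - 17 / 2 * sx * y)) +
        r / 4 * ((ax * x - ay * y) + (13 / 2 * sx * x + 1 / 2 * sy * y)) := by
    unfold fzx fh fYz fXz fzy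
    linear_combination ((x * (2 * ay + sy) - y * (ax + 1 / 2 * sx)) / 4) * hr
  have a2 : (fzx ax ay sx sy (-r) - fh ax ay sx sy (-r)) * fYz x y (-r) + fXz x y (-r) * fzy ax ay sx sy (-r) =
      1 / 4 * ((7 * ay * x - 5 * ax * y) + (9 / 2 * sy * x - 17 / 2 * sx * y)) -
        r / 4 * ((ax * x - ay * y) + (13 / 2 * sx * x + 1 / 2 * sy * y)) := by
    unfold fzx fh fYz fXz fzy
    linear_combination ((x * (2 * ay + sy) - y * (ax + 1 / 2 * sx)) / 4) * hr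
  rw [a1, a2]
  linear_combination (1 / 8 * ((ax * x - ay * y) + (13 / 2 * sx * x + 1 / 2 * sy * y)) ^ 2) * hr

theorem y4_eq (hr : r ^ 2 = 3) (b2 b3 : ℝ) :
    ((fzx ax ay sx sy r - fh ax ay sx sy r) * fYb b2 b3 r + fXb b2 b3 r * fzy ax ay sx sy r) ^ 2 +
      ((fzx ax ay sx sy (-r) - fh ax ay sx sy (-r)) * fYb b2 b3 (-r) + fXb b2 b3 (-r) * fzy ax ay sx sy (-r)) ^ 2 =
      1 / 128 * ((7 * ax * b3 + 20 * ay * b2) + (139 / 2 * sx * b3 + 6 * sy * b2)) ^ 2 +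
      3 / 128 * ((12 * ax * b2 + 27 * ay * b3) + (30 * sx * b2 + 37 / 2 * sy * b3)) ^ 2 := by
  have a1 : (fzx ax ay sx sy r - fh ax ay sx sy r) * fYb b2 b3 r + fXb b2 b3 r * fzy ax ay sx sy r =
      1 / 16 * ((7 * ax * b3 + 20 * ay * b2) + (139 / 2 * sx * b3 + 6 * sy * b2)) +
        r / 16 * ((12 * ax * b2 + 27 * ay * b3) + (30 * sx * b2 + 37 / 2 * sy * b3)) := by
    unfold fzx fh fYb fXb fzy
    linear_combination ((4 * b2 * (2 * ay + sy) - 5 * b3 * (ax + 1 / 2 * sx)) / 16) * hr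
  have a2 : (fzx ax ay sx sy (-r) - fh ax ay sx sy (-r)) * fYb b2 b3 (-r) + fXb b2 b3 (-r) * fzy ax ay sx sy (-r) =
      1 / 16 * ((7 * ax * b3 + 20 * ay * b2) + (139 / 2 * sx * b3 + 6 * sy * b2)) -
        r / 16 * ((12 * ax * b2 + 27 * ay * b3) + (30 * sx * b2 + 37 / 2 * sy * b3)) := by
    unfold fzx fh fYb fXb fzy
    linear_combination ((4 * b2 * (2 * ay + sy) - 5 * b3 * (ax + 1 / 2 * sx)) / 16) * hr
  rw [a1, a2]
  linear_combination (1 / 128 * ((12 * ax * b2 + 27 * ay * b3) + (30 * sx * b2 + 37 / 2 * sy * b3)) ^ 2) * hr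

theorem Rm_bd (hα : 0 ≤ α) (hβ : 0 ≤ β) (hu : α + 8 / 5 * β ≤ 1 / 12) (x y b2 b3 : ℝ) :
    4 * Rm α β x y b2 b3 ≤
      2 * (|x| * (2 / 137 * ((479 / 100 * α + 319 / 25 * (8 / 5 * β)) * |b2| + (203 / 25 * α + 223 / 10 * (8 / 5 * β)) * |b3|))) +
      2 * (|y| * (2 / 137 * ((177 / 50 * α + 198 / 25 * (8 / 5 * β)) * |b2| + (533 / 100 * α + 1237 / 100 * (8 / 5 * β)) * |b3|))) := by
  have hu2 : (α + 8 / 5 * β) ^ 2 ≤ (1 / 12) ^ 2 := pow_le_pow_left₀ (by positivity) hu 2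
  have t := mul_le_mul_of_nonneg_right hu2 (by positivity :
    0 ≤ 144 / 137 * ((479 / 100 * α + 319 / 25 * (8 / 5 * β)) * (|b2| * |x|) +
      (177 / 50 * α + 198 / 25 * (8 / 5 * β)) * (|b2| * |y|) +
      (203 / 25 * α + 223 / 10 * (8 / 5 * β)) * (|b3| * |x|) +
      (533 / 100 * α + 1237 / 100 * (8 / 5 * β)) * (|b3| * |y|)))
  unfold Rm
  linarith only [t]

theorem fin_aux {c P1 P2 Q1 Q2 N1 N2 Y1 Y2 Y3 Y4 S1 S2 S3 S4 W V1 V2 x y b2 b3 L1 L2 xU yU A1 A2 X' : ℝ}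
    (h1 : A1 ≤ Y1 + Y3 + 144 / 137 * ((P1 + 3 / 200 * (Y1 + N1)) + (Q1 + 3 / 200 * (Y3 + N2))) + c * L1 + 2 * W)
    (h2 : A2 ≤ Y2 + Y4 + 144 / 137 * ((P2 + 3 / 200 * (Y2 + N1)) + (Q2 + 3 / 200 * (Y4 + N2))) + c * L2 + 2 * W)
    (y1 : Y1 + Y2 = 3 / 2 * x ^ 2 + 1 / 2 * y ^ 2) (y2 : Y3 + Y4 = 3 / 2 * b2 ^ 2 + 121 / 32 * b3 ^ 2)
    (z3 : P1 + P2 ≤ (1 / 12) ^ 2 * (69 / 10 * x ^ 2 + 19 / 5 * y ^ 2))
    (z4 : Q1 + Q2 ≤ (1 / 12) ^ 2 * (43 / 5 * b2 ^ 2 + 173 / 10 * b3 ^ 2))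
    (n1 : N1 ≤ 1 / 72 * (x ^ 2 + y ^ 2)) (n3 : N2 ≤ 1 / 144 * (2 * b2 ^ 2 + 49 / 8 * b3 ^ 2))
    (eU : c * L1 + c * L2 = c * xU + c * yU) (o1 : c * xU ≤ 2 * (S1 * S3)) (o2 : c * yU ≤ 2 * (S2 * S4))
    (hR : 4 * W ≤ 2 * (S1 * V1) + 2 * (S2 * V2))
    (yx : 2 * (S1 * (S3 + V1)) ≤ 1 / (411 / 100) * x ^ 2 + 411 / 100 * (S3 + V1) ^ 2)
    (yy : 2 * (S2 * (S4 + V2)) ≤ 1 / (88 / 5) * y ^ 2 + 88 / 5 * (S4 + V2) ^ 2)
    (vb : 411 / 100 * (S3 + V1) ^ 2 + 88 / 5 * (S4 + V2) ^ 2 ≤ X')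
    (hX : X' = (873 / 10000) ^ 2 * (190 * b2 ^ 2 + 257 * b3 ^ 2)) :
    A1 + A2 ≤ 3 / 2 * x ^ 2 + 1 / 2 * y ^ 2 + 3 / 2 * b2 ^ 2 + 121 / 32 * b3 ^ 2 +
      (159 / 500 * x ^ 2 + 93 / 1000 * y ^ 2 + 31 / 20 * b2 ^ 2 + 43 / 20 * b3 ^ 2) := by
  have p1 := sq_nonneg x
  have p2 := sq_nonneg y
  have p3 := sq_nonneg b2
  have p4 := sq_nonneg b3
  have e1 : 2 * (S1 * (S3 + V1)) = 2 * (S1 * S3) + 2 * (S1 * V1) := by ring
  have e2 : 2 * (S2 * (S4 + V2)) = 2 * (S2 * S4) + 2 * (S2 * V2) := by ring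
  rw [e1] at yx
  rw [e2] at yy
  rw [hX] at vb
  generalize 411 / 100 * (S3 + V1) ^ 2 = t1 at *
  generalize 88 / 5 * (S4 + V2) ^ 2 = t2 at *
  linarith only [h1, h2, y1, y2, z3, z4, n1, n3, eU, o1, o2, hR, yx, yy, vb, p1, p2, p3, p4]

theorem core_real (hα : 0 ≤ α) (hβ : 0 ≤ β) (ha : ax ^ 2 + ay ^ 2 = α ^ 2) (hs : sx ^ 2 + sy ^ 2 = β ^ 2)
    (hu : α + 8 / 5 * β ≤ 1 / 12) (hr : r ^ 2 = 3) (x y b2 b3 : ℝ) :
    avg ax ay sx sy x y b2 b3 r + avg ax ay sx sy x y b2 b3 (-r) ≤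
      3 / 2 * x ^ 2 + 1 / 2 * y ^ 2 + 3 / 2 * b2 ^ 2 + 121 / 32 * b3 ^ 2 +
      (159 / 500 * x ^ 2 + 93 / 1000 * y ^ 2 + 31 / 20 * b2 ^ 2 + 43 / 20 * b3 ^ 2) := by
  have hr' : (-r) ^ 2 = 3 := by rw [neg_sq, hr]
  have o1 := one_r hα hβ ha hs hu hr x y b2 b3
  have o2 := one_r hα hβ ha hs hu hr' x y b2 b3
  rw [L_eq hr] at o1
  rw [L_eq hr'] at o2
  have y1 : fYz x y r ^ 2 + fYz x y (-r) ^ 2 = 3 / 2 * x ^ 2 + 1 / 2 * y ^ 2 := by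
    unfold fYz; linear_combination (x ^ 2 / 2) * hr
  have y2 : fYb b2 b3 r ^ 2 + fYb b2 b3 (-r) ^ 2 = 3 / 2 * b2 ^ 2 + 121 / 32 * b3 ^ 2 := by
    unfold fYb; linear_combination (b2 ^ 2 / 2) * hr
  have z1 := zzA x y hα hβ ha hs
  have z2 := bbB b2 b3 hα hβ ha hs
  rw [← y3_eq hr] at z1
  rw [← y4_eq hr] at z2
  have hu2 : (α + 8 / 5 * β) ^ 2 ≤ (1 / 12) ^ 2 := pow_le_pow_left₀ (by positivity) hu 2
  have z3 := z1.trans (mul_le_mul_of_nonneg_right hu2 (by positivity))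
  have z4 := z2.trans (mul_le_mul_of_nonneg_right hu2 (by positivity))
  have hk := (k_le hα hβ ha hs).trans (k_le2 hα hβ hu)
  have hk1 := (abs_le.1 hk).2
  have hμ : 0 < 1 - fκ ax ay sx sy := by linarith only [hk1]
  have hμ1 : 1 / (1 - fκ ax ay sx sy) ≤ 66 / 65 := by
    rw [div_le_div_iff₀ hμ (by norm_num)]; linarith only [hk1]
  have hμ0 : 0 ≤ 1 / (1 - fκ ax ay sx sy) := by positivity
  refine fin_aux (c := 2 * (1 / (1 - fκ ax ay sx sy))) o1 o2 y1 y2 z3 z4 (n1_bd hα hβ ha hs hu x y) (n3_aux b2 b3)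
    (xU := x * ((9 / 4 * ax * b2 + 125 / 16 * ay * b3) + (45 / 8 * sx * b2 + 243 / 32 * sy * b3)))
    (yU := y * ((-(5 / 4) * ay * b2 - 51 / 16 * ax * b3) + (-(3 / 8) * sy * b2 - 183 / 32 * sx * b3)))
    ?_ (od_aux hμ0 hμ1) (od_aux hμ0 hμ1) (Rm_bd hα hβ hu x y b2 b3) (young (by norm_num)) (young (by norm_num))
    (V_bound hα hβ ha hs hu b2 b3) rfl
  ring

end concrete

/-! ### complex form -/

open Complex

/-- `z0 = a + s - conj s / 2` -/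
noncomputable def z0f (a s : ℂ) : ℂ := a + s - (starRingEnd ℂ) s / 2
/-- `N0 = i z0' = 3 a + 5 s + (5/2) conj s` -/
noncomputable def n0f (a s : ℂ) : ℂ := 3 * a + 5 * s + 5 / 2 * (starRingEnd ℂ) s

/-- `Im (x conj F)² / (|F|² φ')`, `F = 1 + e z0`, `x = xb + e ρ` -/
noncomputable def T1f (e xb a s ρ : ℂ) : ℝ :=
  ((xb + e * ρ) * (starRingEnd ℂ) (1 + e * z0f a s)).im ^ 2 /
    (normSq (1 + e * z0f a s) - (e * n0f a s * (starRingEnd ℂ) (1 + e * z0f a s)).re)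

theorem im_aux (x w v : ℂ) : ((x + w) * (starRingEnd ℂ) (1 + v)).im =
    w.im + (x.im * v.re - x.re * v.im) + (x.im + (w.im * v.re - w.re * v.im)) := by
  simp only [mul_im, conj_re, conj_im, add_re, add_im, one_re, one_im]
  ring

theorem T1f_avg {e xb a s ρ : ℂ} {r b2 b3 : ℝ} (he1 : e.re = 1 / 2) (he2 : e.im = -(r / 2)) (hr : r ^ 2 = 3)
    (hx1 : xb.re = fXb b2 b3 r) (hx2 : xb.im = fYb b2 b3 r) :
    (T1f e xb a s ρ + T1f e xb (-a) (-s) (-ρ)) / 2 = avg a.re a.im s.re s.im ρ.re ρ.im b2 b3 r := by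
  have zr : (e * z0f a s).re = fzx a.re a.im s.re s.im r := by
    simp only [z0f, fzx, mul_re, add_re, sub_re, add_im, sub_im, conj_re, conj_im, div_ofNat_re, div_ofNat_im, he1, he2]
    ring
  have zi : (e * z0f a s).im = fzy a.re a.im s.re s.im r := by
    simp only [z0f, fzy, mul_im, add_re, sub_re, add_im, sub_im, conj_re, conj_im, div_ofNat_re, div_ofNat_im, he1, he2]
    ring
  have nr : (e * n0f a s).re = fh a.re a.im s.re s.im r := by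
    simp only [n0f, fh, mul_re, mul_im, add_re, add_im, conj_re, conj_im, div_ofNat_re, div_ofNat_im, re_ofNat, im_ofNat,
      he1, he2]
    ring
  have ρr : (e * ρ).re = fXz ρ.re ρ.im r := by
    simp only [fXz, mul_re, he1, he2]; ring
  have ρi : (e * ρ).im = fYz ρ.re ρ.im r := by
    simp only [fYz, mul_im, he1, he2]; ring
  -- `|e z0|² - Re (e N0 conj (e z0)) = - κ`
  have hk : (e * z0f a s).re ^ 2 + (e * z0f a s).im ^ 2 - ((e * n0f a s).re * (e * z0f a s).re +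
      (e * n0f a s).im * (e * z0f a s).im) = -fκ a.re a.im s.re s.im := by
    simp only [n0f, z0f, fκ, mul_re, mul_im, add_re, add_im, sub_re, sub_im, conj_re, conj_im, div_ofNat_re,
      div_ofNat_im, re_ofNat, im_ofNat, he1, he2]
    have h4 : (1 / 2 : ℝ) ^ 2 + (r / 2) ^ 2 = 1 := by nlinarith
    linear_combination (-((2 * a.re + 7 * s.re) * (a.re + 1 / 2 * s.re) + (2 * a.im + s.im) * (a.im + 3 / 2 * s.im))) * h4
  have z0n : z0f (-a) (-s) = -z0f a s := by unfold z0f; rw [map_neg]; ring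
  have n0n : n0f (-a) (-s) = -n0f a s := by unfold n0f; rw [map_neg]; ring
  have d1 : normSq (1 + e * z0f a s) - (e * n0f a s * (starRingEnd ℂ) (1 + e * z0f a s)).re =
      (1 - fκ a.re a.im s.re s.im) + (2 * fzx a.re a.im s.re s.im r - fh a.re a.im s.re s.im r) := by
    rw [← zr, ← nr, normSq_apply, mul_re, conj_re, conj_im, add_re, add_im, one_re, one_im]
    linear_combination hk
  have d2 : normSq (1 + e * z0f (-a) (-s)) - (e * n0f (-a) (-s) * (starRingEnd ℂ) (1 + e * z0f (-a) (-s))).re =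
      (1 - fκ a.re a.im s.re s.im) - (2 * fzx a.re a.im s.re s.im r - fh a.re a.im s.re s.im r) := by
    rw [z0n, n0n, ← zr, ← nr, mul_neg, mul_neg, normSq_apply, mul_re, conj_re, conj_im, add_re, add_im, one_re, one_im,
      neg_re, neg_im, neg_re, neg_im]
    linear_combination hk
  have c1 : ((xb + e * ρ) * (starRingEnd ℂ) (1 + e * z0f a s)).im =
      fYz ρ.re ρ.im r + (fYb b2 b3 r * fzx a.re a.im s.re s.im r - fXb b2 b3 r * fzy a.re a.im s.re s.im r) +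
      (fYb b2 b3 r + (fYz ρ.re ρ.im r * fzx a.re a.im s.re s.im r - fXz ρ.re ρ.im r * fzy a.re a.im s.re s.im r)) := by
    rw [im_aux, zr, zi, ρr, ρi, hx1, hx2]
  have c2 : ((xb + e * -ρ) * (starRingEnd ℂ) (1 + e * z0f (-a) (-s))).im =
      -(fYz ρ.re ρ.im r + (fYb b2 b3 r * fzx a.re a.im s.re s.im r - fXb b2 b3 r * fzy a.re a.im s.re s.im r) -
      (fYb b2 b3 r + (fYz ρ.re ρ.im r * fzx a.re a.im s.re s.im r - fXz ρ.re ρ.im r * fzy a.re a.im s.re s.im r))) := by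
    rw [z0n, mul_neg, mul_neg, im_aux, neg_re, neg_im, neg_re, neg_im, zr, zi, ρr, ρi, hx1, hx2]
    ring
  unfold T1f avg
  rw [d1, d2, c1, c2, neg_sq]

theorem T1_pt {e1 e2 : ℂ} (h1r : e1.re = 1 / 2) (h1i : e1.im = -(Real.sqrt 3 / 2)) (h2r : e2.re = 1 / 2)
    (h2i : e2.im = Real.sqrt 3 / 2) {a s : ℂ} (h : ‖a‖ + 8 / 5 * ‖s‖ ≤ 1 / 12) (ρ : ℂ) (b2 b3 : ℝ) :
    (T1f e1 (e1 ^ 2 * b2 + e1 * (Real.sqrt 3 + I / 4) * b3) a s ρ +
      T1f e1 (e1 ^ 2 * b2 + e1 * (Real.sqrt 3 + I / 4) * b3) (-a) (-s) (-ρ)) / 2 +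
    (T1f e2 (e2 ^ 2 * b2 - e2 * (Real.sqrt 3 - I / 4) * b3) a s ρ +
      T1f e2 (e2 ^ 2 * b2 - e2 * (Real.sqrt 3 - I / 4) * b3) (-a) (-s) (-ρ)) / 2 ≤
      3 / 2 * ρ.re ^ 2 + 1 / 2 * ρ.im ^ 2 + 3 / 2 * b2 ^ 2 + 121 / 32 * b3 ^ 2 +
      (159 / 500 * ρ.re ^ 2 + 93 / 1000 * ρ.im ^ 2 + 31 / 20 * b2 ^ 2 + 43 / 20 * b3 ^ 2) := by
  have hr : Real.sqrt 3 ^ 2 = 3 := Real.sq_sqrt (by norm_num)
  have hr' : (-Real.sqrt 3) ^ 2 = 3 := by rw [neg_sq, hr]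
  have na : a.re ^ 2 + a.im ^ 2 = ‖a‖ ^ 2 := by rw [← Complex.normSq_eq_norm_sq, Complex.normSq_apply]; ring
  have ns : s.re ^ 2 + s.im ^ 2 = ‖s‖ ^ 2 := by rw [← Complex.normSq_eq_norm_sq, Complex.normSq_apply]; ring
  rw [T1f_avg (r := Real.sqrt 3) (b2 := b2) (b3 := b3) h1r h1i hr ?_ ?_,
    T1f_avg (r := -Real.sqrt 3) (b2 := b2) (b3 := b3) h2r (by rw [h2i]; ring) hr' ?_ ?_]
  · exact core_real (norm_nonneg _) (norm_nonneg _) na ns h hr ρ.re ρ.im b2 b3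
  · simp only [fXb, pow_two, mul_re, mul_im, add_re, add_im, sub_re, sub_im, ofReal_re, ofReal_im, I_re, I_im,
      div_ofNat_re, div_ofNat_im, h1r, h1i, h2r, h2i]
    linear_combination (-(b2 / 4)) * hr
  · simp only [fYb, pow_two, mul_re, mul_im, add_re, add_im, sub_re, sub_im, ofReal_re, ofReal_im, I_re, I_im,
      div_ofNat_re, div_ofNat_im, h1r, h1i, h2r, h2i]
    linear_combination (-(b3 / 2)) * hr
  · simp only [fXb, pow_two, mul_re, mul_im, add_re, add_im, sub_re, sub_im, ofReal_re, ofReal_im, I_re, I_im,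
      div_ofNat_re, div_ofNat_im, h1r, h1i, h2r, h2i]
    linear_combination (-(b2 / 4)) * hr
  · simp only [fYb, pow_two, mul_re, mul_im, add_re, add_im, sub_re, sub_im, ofReal_re, ofReal_im, I_re, I_im,
      div_ofNat_re, div_ofNat_im, h1r, h1i, h2r, h2i]
    linear_combination (-(b3 / 2)) * hr

end Pool.Agent.Helper17.SH
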