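import Pool.Agent.Helper17.SH.PtT1
import Pool.Agent.Helper73.SH.WLocE

/-!
# Project RC, SHARP, zone I: `T1St` and (C2)
-/

set_option autoImplicit false

namespace Pool.Agent.Helper17.SH

open Helper49.LT hiding sg
open Helper49.RC Helper44.GQ
open Pool.Agent.Helper43.SH (om_re' om_im')
open Pool.Agent.Helper73.SH (xb1 xb2 kp)

theorem T1f_eq (e xb a s ρ : ℂ) : Pool.Agent.Helper73.SH.T1f e xb a s ρ = T1f e xb a s ρ := by
  have e1 : a + s - 1 / 2 * (starRingEnd ℂ) s = z0f a s := by unfold z0f; ring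
  have e2 : 3 * a + 5 * s + 5 / 2 * (starRingEnd ℂ) s = n0f a s := rfl
  unfold Pool.Agent.Helper73.SH.T1f T1f
  rw [e1, e2, Complex.normSq_eq_norm_sq]

theorem t1St : Pool.Agent.Helper73.SH.T1St := by
  intro a s ρ b2 b3 h
  have c1r : ((starRingEnd ℂ) om).re = 1 / 2 := by rw [Complex.conj_re, om_re']
  have c1i : ((starRingEnd ℂ) om).im = -(Real.sqrt 3 / 2) := by rw [Complex.conj_im, om_im']
  have key := T1_pt c1r c1i om_re' om_im' h ρ b2 b3
  have x1 : (starRingEnd ℂ) om ^ 2 * (b2 : ℂ) + (starRingEnd ℂ) om * (Real.sqrt 3 + Complex.I / 4) * (b3 : ℂ) =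
      xb1 b2 b3 := rfl
  have x2 : om ^ 2 * (b2 : ℂ) - om * (Real.sqrt 3 - Complex.I / 4) * (b3 : ℂ) = xb2 b2 b3 := by
    unfold xb2 kp
    rw [map_add, Complex.conj_ofReal, map_div₀, Complex.conj_I, map_ofNat]
    ring
  rw [x1, x2] at key
  simp only [T1f_eq]
  have hr : Real.sqrt 3 ^ 2 = 3 := Real.sq_sqrt (by norm_num)
  have i1 : (xb1 b2 b3).im = fYb b2 b3 (Real.sqrt 3) := by
    rw [← x1]
    simp only [fYb, pow_two, Complex.mul_re, Complex.mul_im, Complex.add_re, Complex.add_im, Complex.ofReal_re,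
      Complex.ofReal_im, Complex.I_re, Complex.I_im, Complex.div_ofNat_re, Complex.div_ofNat_im, c1r, c1i]
    linear_combination (-(b3 / 2)) * hr
  have i2 : (xb2 b2 b3).im = fYb b2 b3 (-Real.sqrt 3) := by
    rw [← x2]
    simp only [fYb, pow_two, Complex.mul_re, Complex.mul_im, Complex.sub_re, Complex.sub_im, Complex.ofReal_re,
      Complex.ofReal_im, Complex.I_re, Complex.I_im, Complex.div_ofNat_re, Complex.div_ofNat_im, om_re', om_im']
    linear_combination (-(b3 / 2)) * hr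
  have i3 : ((starRingEnd ℂ) om * ρ).im = 1 / 2 * ρ.im - Real.sqrt 3 / 2 * ρ.re := by
    rw [Complex.mul_im, c1r, c1i]; ring
  have i4 : (om * ρ).im = 1 / 2 * ρ.im + Real.sqrt 3 / 2 * ρ.re := by
    rw [Complex.mul_im, om_re', om_im']
  have s1 : (xb1 b2 b3).im ^ 2 + (xb2 b2 b3).im ^ 2 = 3 / 2 * b2 ^ 2 + 121 / 32 * b3 ^ 2 := by
    rw [i1, i2]; unfold fYb; linear_combination (b2 ^ 2 / 2) * hr
  have s2 : ((starRingEnd ℂ) om * ρ).im ^ 2 + (om * ρ).im ^ 2 = 3 / 2 * ρ.re ^ 2 + 1 / 2 * ρ.im ^ 2 := by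
    rw [i3, i4]; linear_combination (ρ.re ^ 2 / 2) * hr
  linarith

/-- (C2) -/
theorem stC2 : Pool.Agent.Helper61.RC.QC.StC2 := Pool.Agent.Helper73.SH.stC2_of t1St

end Pool.Agent.Helper17.SH
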